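import Pool.Agent.R34.DP.Stm

/-!
# DP-INT (helper139): isotonic regression preserves the integral
-/

open MeasureTheory ProbabilityTheory Set Filter
open scoped NNReal ENNReal Topology

namespace R34.DP

namespace INT

/-- If `|D t - D c| ≤ (c - t) (ψ c - ψ t)` for `t < c` then `D` is constant. -/
theorem tele (D ψ : ℝ → ℝ) (h : ∀ t c, t < c → |D t - D c| ≤ (c - t) * (ψ c - ψ t))
    (a b : ℝ) (hab : a < b) : D a = D b := by
  have key : ∀ n : ℕ, 0 < n → |D a - D b| ≤ (b - a) * (ψ b - ψ a) / n := by
    intro n hn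
    have hn' : (0 : ℝ) < n := by exact_mod_cast hn
    set δ : ℝ := (b - a) / n with hδ
    have hδ0 : 0 < δ := div_pos (by linarith) hn'
    set x : ℕ → ℝ := fun i => a + i * δ with hx
    have h0 : x 0 = a := by simp [hx]
    have hnb : x n = b := by
      simp only [hx, hδ]
      field_simp
      ring
    have h1 := dist_le_range_sum_dist (fun i => D (x i)) n
    have h2 : ∑ i ∈ Finset.range n, dist (D (x i)) (D (x (i + 1))) ≤
        ∑ i ∈ Finset.range n, δ * (ψ (x (i + 1)) - ψ (x i)) := by
      refine Finset.sum_le_sum fun i _ => ?_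
      rw [Real.dist_eq]
      have e : x (i + 1) - x i = δ := by
        simp only [hx]
        push_cast
        ring
      have := h (x i) (x (i + 1)) (by linarith)
      rwa [e] at this
    rw [← Finset.mul_sum, Finset.sum_range_sub (fun i => ψ (x i)) n, h0, hnb] at h2
    simp only [h0, hnb] at h1
    rw [Real.dist_eq] at h1
    refine (h1.trans h2).trans (le_of_eq ?_)
    rw [hδ]
    ring
  by_contra hne
  have hpos : 0 < |D a - D b| := abs_pos.2 (sub_ne_zero.2 hne)
  obtain ⟨n, hn⟩ := exists_nat_gt ((b - a) * (ψ b - ψ a) / |D a - D b|)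
  have h1 := key (n + 1) (Nat.succ_pos n)
  have hn1 : (0 : ℝ) < (n + 1 : ℕ) := by exact_mod_cast Nat.succ_pos n
  rw [le_div_iff₀ hn1] at h1
  rw [div_lt_iff₀ hpos] at hn
  push_cast at h1
  nlinarith

/-- inner regularity, in the form used below. -/
theorem inner (μ : Measure ℝ) [IsProbabilityMeasure μ] {U : Set ℝ} (hU : IsOpen U) (a Q : ℝ)
    (ha : 0 ≤ a) (hQ : 0 ≤ Q)
    (h : ∀ K ⊆ U, IsCompact K → K.Nonempty → a * μ.real K ≤ Q) : a * μ.real U ≤ Q := by
  by_contra hcon
  rw [not_le] at hcon
  have ha' : 0 < a := by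
    rcases ha.eq_or_lt with h0 | h0
    · rw [← h0, zero_mul] at hcon
      linarith
    · exact h0
  have h1 : Q / a < μ.real U := by
    rw [div_lt_iff₀ ha', mul_comm]
    exact hcon
  have h2 : ENNReal.ofReal (Q / a) < μ U := by
    rw [ENNReal.ofReal_lt_iff_lt_toReal (by positivity) (measure_ne_top _ _)]
    exact h1
  obtain ⟨K, hKU, hK, hKm⟩ := hU.exists_lt_isCompact h2
  have hne : K.Nonempty := by
    rw [Set.nonempty_iff_ne_empty]
    rintro rfl
    simp at hKm
  have h3 := h K hKU hK hne
  rw [ENNReal.ofReal_lt_iff_lt_toReal (by positivity) (measure_ne_top _ _)] at hKm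
  have h4 : Q / a < μ.real K := hKm
  rw [div_lt_iff₀ ha'] at h4
  linarith

theorem upper_set (μ : Measure ℝ) [IsProbabilityMeasure μ] {U : Set ℝ} (hU : IsOpen U)
    (a Q : ℝ) (ha : 0 ≤ a) (hQ : 0 ≤ Q)
    (h : ∀ y ∈ U, a * μ.real (Ioi y) ≤ Q) : a * μ.real U ≤ Q := by
  refine inner μ hU a Q ha hQ fun K hKU hK hne => ?_
  obtain ⟨m, hm⟩ := hK.exists_isLeast hne
  obtain ⟨ε, hε, hball⟩ := Metric.isOpen_iff.1 hU m (hKU hm.1)
  have hy : m - ε / 2 ∈ U := hball (by
    rw [Metric.mem_ball, Real.dist_eq, sub_sub_cancel_left, abs_neg, abs_of_pos (by positivity)]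
    linarith)
  refine le_trans (mul_le_mul_of_nonneg_left (measureReal_mono ?_) ha) (h _ hy)
  intro x hx
  have := hm.2 hx
  show m - ε / 2 < x
  linarith

theorem lower_set (μ : Measure ℝ) [IsProbabilityMeasure μ] {U : Set ℝ} (hU : IsOpen U)
    (a Q : ℝ) (ha : 0 ≤ a) (hQ : 0 ≤ Q)
    (h : ∀ y ∈ U, a * μ.real (Iic y) ≤ Q) : a * μ.real U ≤ Q := by
  refine inner μ hU a Q ha hQ fun K hKU hK hne => ?_
  obtain ⟨m, hm⟩ := hK.exists_isGreatest hne
  refine le_trans (mul_le_mul_of_nonneg_left (measureReal_mono ?_) ha) (h _ (hKU hm.1))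
  exact fun x hx => hm.2 hx

theorem Ioi_Iic (μ : Measure ℝ) [IsProbabilityMeasure μ] (y : ℝ) :
    μ.real (Ioi y) = 1 - μ.real (Iic y) := by
  have h := measureReal_add_measureReal_compl (μ := μ) (s := Iic y) measurableSet_Iic
  rw [compl_Iic, probReal_univ] at h
  linarith

/-- `J_c(A)`. -/
noncomputable def J (h : ℝ → ℝ) (c A : ℝ) : ℝ := ∫ t in Ioi A, (h t - c) ∂g1

/-- `Λ(c)`. -/
noncomputable def Lam (h : ℝ → ℝ) (c : ℝ) : ℝ := ⨆ A : ℝ, J h c A

theorem J_sub (h : ℝ → ℝ) (hi : Integrable h g1) (c A b : ℝ) (hAb : A ≤ b) :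
    J h c A = phi h c A b + J h c b := by
  have hic : Integrable (fun t => h t - c) g1 := hi.sub (integrable_const c)
  unfold J phi
  rw [← Ioc_union_Ioi_eq_Ioi hAb, setIntegral_union ?_ measurableSet_Ioi hic.integrableOn
    hic.integrableOn]
  exact Set.disjoint_left.2 fun x hx hx' => absurd hx.2 (not_le.2 hx')

theorem J_lev (h : ℝ → ℝ) (hi : Integrable h g1) (c t A : ℝ) :
    J h t A = J h c A + (c - t) * g1.real (Ioi A) := by
  have hic : Integrable (fun t => h t - c) g1 := hi.sub (integrable_const c)
  unfold J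
  have e : ∀ x, h x - t = (h x - c) + (c - t) := fun x => by ring
  simp_rw [e]
  rw [integral_add hic.integrableOn (integrable_const _).integrableOn, setIntegral_const,
    smul_eq_mul]
  ring

theorem J_bdd (h : ℝ → ℝ) (B : ℝ) (hB : ∀ x, |h x| ≤ B) (c : ℝ) :
    BddAbove (range fun A => J h c A) := by
  refine ⟨(B + |c|) * 1, ?_⟩
  rintro _ ⟨A, rfl⟩
  have hB0 : 0 ≤ B := (abs_nonneg _).trans (hB 0)
  have h1 := norm_setIntegral_le_of_norm_le_const (μ := g1) (s := Ioi A) (f := fun t => h t - c)
    (C := B + |c|) (measure_lt_top _ _) (fun x _ => by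
      rw [Real.norm_eq_abs]
      exact (abs_sub _ _).trans (by linarith [hB x]))
  refine (le_abs_self _).trans (h1.trans ?_)
  exact mul_le_mul_of_nonneg_left (measureReal_le_one) (by positivity)

theorem le_Lam (h : ℝ → ℝ) (B : ℝ) (hB : ∀ x, |h x| ≤ B) (c A : ℝ) : J h c A ≤ Lam h c :=
  le_ciSup (J_bdd h B hB c) A

end INT

open INT in
theorem t_INT : S_KEY1 → S_KEY2 → S_INT := by
  intro K1 K2 h hA hmono hcont
  obtain ⟨⟨K, hK⟩, B, hB⟩ := id hA
  have hB0 : 0 ≤ B := (abs_nonneg _).trans (hB 0)
  have hi : Integrable h g1 := Integrable.of_bound hK.continuous.aestronglyMeasurable B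
    (Filter.Eventually.of_forall fun x => by rw [Real.norm_eq_abs]; exact hB x)
  set u := iso h with hu
  have hu1 : ∀ y, u y ≤ B := by
    intro y
    by_contra hcon
    rw [not_le] at hcon
    obtain ⟨c, hc1, hc2⟩ := exists_between hcon
    obtain ⟨A, _, _, h3⟩ := K1 h hA y c hc2
    have := (abs_le.1 (hB A)).2
    linarith
  have hu2 : ∀ y, -B ≤ u y := by
    intro y
    refine K2 h hA y (-B) (y - 1) (by linarith) fun b _ => ?_
    unfold phi
    refine integral_nonneg fun t => ?_
    have := (abs_le.1 (hB t)).1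
    show 0 ≤ h t - -B
    linarith
  have hui : Integrable u g1 := Integrable.of_bound hcont.aestronglyMeasurable B
    (Filter.Eventually.of_forall fun x => by
      rw [Real.norm_eq_abs]; exact abs_le.2 ⟨hu2 x, hu1 x⟩)
  -- the two comparison facts
  have f1 : ∀ c y b, c < u y → ∃ A < y, J h c b ≤ J h c A := by
    intro c y b hcy
    obtain ⟨A, hAy, hAb, _⟩ := K1 h hA y c hcy
    by_cases hb : b < A
    · exact ⟨b, hb.trans hAy, le_rfl⟩
    · refine ⟨A, hAy, ?_⟩
      rw [J_sub h hi c A b (not_lt.1 hb)]
      linarith [hAb b (not_lt.1 hb)]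
  have f2 : ∀ c y a, u y < c → ∃ b, y ≤ b ∧ J h c a ≤ J h c b := by
    intro c y a hcy
    by_cases ha : y ≤ a
    · exact ⟨a, ha, le_rfl⟩
    · by_contra hcon
      push Not at hcon
      have h1 : c ≤ iso h y := by
        refine K2 h hA y c a (not_le.1 ha) fun b hb => ?_
        have h2 := hcon b hb
        rw [J_sub h hi c a b ((not_le.1 ha).le.trans hb)] at h2
        linarith
      exact absurd h1 (not_le.2 hcy)
  -- level sets
  set P : ℝ → ℝ := fun c => g1.real {x | c < u x} with hP
  set Q : ℝ → ℝ := fun c => g1.real {x | c ≤ u x} with hQ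
  have hPm : ∀ c, MeasurableSet {x | c < u x} := fun c => (isOpen_lt continuous_const hcont).measurableSet
  have hQm : ∀ c, MeasurableSet {x | c ≤ u x} := fun c => (isClosed_le continuous_const hcont).measurableSet
  have hmonoJ : ∀ t c, t < c → Lam h c ≤ Lam h t := by
    intro t c htc
    refine ciSup_le fun A => ?_
    refine le_trans ?_ (le_Lam h B hB t A)
    rw [J_lev h hi c t A]
    have : 0 ≤ (c - t) * g1.real (Ioi A) := mul_nonneg (by linarith) measureReal_nonneg
    linarith
  have hupJ : ∀ t c, t < c → Lam h t - Lam h c ≤ (c - t) := by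
    intro t c htc
    rw [sub_le_iff_le_add]
    refine ciSup_le fun A => ?_
    have h1 := le_Lam h B hB c A
    rw [J_lev h hi c t A]
    have : (c - t) * g1.real (Ioi A) ≤ (c - t) * 1 :=
      mul_le_mul_of_nonneg_left measureReal_le_one (by linarith)
    linarith
  have hL1 : ∀ t c, t < c → (c - t) * P c ≤ Lam h t - Lam h c := by
    intro t c htc
    refine upper_set g1 (isOpen_lt continuous_const hcont) (c - t) _ (by linarith)
      (by linarith [hmonoJ t c htc]) fun y hy => ?_
    have h1 : Lam h c ≤ Lam h t - (c - t) * g1.real (Ioi y) := by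
      refine ciSup_le fun b => ?_
      obtain ⟨A, hAy, hAb⟩ := f1 c y b hy
      have h2 := le_Lam h B hB t A
      rw [J_lev h hi c t A] at h2
      have h3 : (c - t) * g1.real (Ioi y) ≤ (c - t) * g1.real (Ioi A) :=
        mul_le_mul_of_nonneg_left (measureReal_mono (Ioi_subset_Ioi hAy.le)) (by linarith)
      linarith
    linarith
  have hL2 : ∀ t c, t < c → Lam h t - Lam h c ≤ (c - t) * Q t := by
    intro t c htc
    have h1 : (c - t) * g1.real {x | u x < t} ≤ (c - t) - (Lam h t - Lam h c) := by
      refine lower_set g1 (isOpen_lt hcont continuous_const) (c - t) _ (by linarith)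
        (by linarith [hupJ t c htc]) fun y hy => ?_
      have h1 : Lam h t ≤ Lam h c + (c - t) * g1.real (Ioi y) := by
        refine ciSup_le fun a => ?_
        obtain ⟨b, hyb, hab⟩ := f2 t y a hy
        have h2 := le_Lam h B hB c b
        have h3 := J_lev h hi c t b
        have h4 : (c - t) * g1.real (Ioi b) ≤ (c - t) * g1.real (Ioi y) :=
          mul_le_mul_of_nonneg_left (measureReal_mono (Ioi_subset_Ioi hyb)) (by linarith)
        linarith
      rw [Ioi_Iic] at h1
      linarith
    have h2 := measureReal_add_measureReal_compl (μ := g1) (hQm t)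
    have h3 : {x | t ≤ u x}ᶜ = {x | u x < t} := by
      ext x
      simp
    rw [h3, probReal_univ] at h2
    have h4 : g1.real {x | u x < t} = 1 - Q t := by
      simp only [hQ]
      linarith
    rw [h4] at h1
    linarith
  -- the same for `N`
  set N : ℝ → ℝ := fun c => ∫ x, max (u x - c) 0 ∂g1 with hN
  have hNi : ∀ c, Integrable (fun x => max (u x - c) 0) g1 := fun c =>
    (hui.sub (integrable_const c)).sup (integrable_const 0)
  have hN0 : ∀ t c, N t - N c = ∫ x, (max (u x - t) 0 - max (u x - c) 0) ∂g1 := by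
    intro t c
    exact (integral_sub (hNi t) (hNi c)).symm
  have hN1 : ∀ t c, t < c → (c - t) * P c ≤ N t - N c := by
    intro t c htc
    have e : (c - t) * P c = ∫ x, {x | c < u x}.indicator (fun _ => c - t) x ∂g1 := by
      rw [integral_indicator_const _ (hPm c), smul_eq_mul, mul_comm]
    rw [e, hN0]
    refine integral_mono ((integrable_const _).indicator (hPm c)) ((hNi t).sub (hNi c)) fun x => ?_
    by_cases hx : c < u x
    · rw [indicator_of_mem (show x ∈ {x | c < u x} from hx)]
      show c - t ≤ max (u x - t) 0 - max (u x - c) 0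
      rw [max_eq_left (by linarith), max_eq_left (by linarith)]
      linarith
    · rw [indicator_of_notMem (show x ∉ {x | c < u x} from hx)]
      show 0 ≤ max (u x - t) 0 - max (u x - c) 0
      have : max (u x - c) 0 ≤ max (u x - t) 0 := max_le_max (by linarith) le_rfl
      linarith
  have hN2 : ∀ t c, t < c → N t - N c ≤ (c - t) * Q t := by
    intro t c htc
    have e : (c - t) * Q t = ∫ x, {x | t ≤ u x}.indicator (fun _ => c - t) x ∂g1 := by
      rw [integral_indicator_const _ (hQm t), smul_eq_mul, mul_comm]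
    rw [e, hN0]
    refine integral_mono ((hNi t).sub (hNi c)) ((integrable_const _).indicator (hQm t)) fun x => ?_
    by_cases hx : t ≤ u x
    · rw [indicator_of_mem (show x ∈ {x | t ≤ u x} from hx)]
      show max (u x - t) 0 - max (u x - c) 0 ≤ c - t
      rw [max_eq_left (by linarith)]
      have : u x - c ≤ max (u x - c) 0 := le_max_left _ _
      linarith
    · rw [indicator_of_notMem (show x ∉ {x | t ≤ u x} from hx)]
      rw [not_le] at hx
      show max (u x - t) 0 - max (u x - c) 0 ≤ 0
      rw [max_eq_right (by linarith)]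
      have : 0 ≤ max (u x - c) 0 := le_max_right _ _
      linarith
  -- `Λ - N` is constant
  have hD : ∀ a b, a < b → Lam h a - N a = Lam h b - N b := by
    refine tele (fun c => Lam h c - N c) (fun c => -(P c + Q c)) fun t c htc => ?_
    have h1 := hL1 t c htc
    have h2 := hL2 t c htc
    have h3 := hN1 t c htc
    have h4 := hN2 t c htc
    have h5 : Q c ≤ P t := measureReal_mono fun x hx => lt_of_lt_of_le htc hx
    have h6 : (c - t) * (Q t - P c) ≤ (c - t) * (-(P c + Q c) - -(P t + Q t)) :=
      mul_le_mul_of_nonneg_left (by linarith) (by linarith)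
    refine le_trans ?_ h6
    rw [abs_le]
    constructor <;> nlinarith
  have hDB : Lam h (-B) - N (-B) = Lam h B - N B := by
    rcases hB0.eq_or_lt with h0 | h0
    · rw [← h0, neg_zero]
    · exact hD _ _ (by linarith)
  -- the ends
  have e1 : Lam h B = 0 := by
    apply le_antisymm
    · refine ciSup_le fun A => ?_
      unfold J
      refine integral_nonpos fun t => ?_
      have := (abs_le.1 (hB t)).2
      show h t - B ≤ 0
      linarith
    · have h1 : (2 * B) * g1.real univ ≤ Lam h B + 2 * B := by
        have h0 : ∀ y, 2 * B * g1.real (Iic y) ≤ Lam h B + 2 * B := by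
          intro y
          have h2 := le_Lam h B hB B y
          have h3 : -(2 * B * g1.real (Ioi y)) ≤ J h B y := by
            unfold J
            have h4 := norm_setIntegral_le_of_norm_le_const (μ := g1) (s := Ioi y)
              (f := fun t => h t - B) (C := 2 * B) (measure_lt_top _ _) (fun x _ => by
                rw [Real.norm_eq_abs, abs_le]
                have := abs_le.1 (hB x)
                constructor <;> linarith)
            rw [Real.norm_eq_abs, abs_le] at h4
            exact h4.1
          rw [Ioi_Iic] at h3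
          linarith
        refine lower_set g1 isOpen_univ (2 * B) _ (by linarith) ?_ fun y _ => h0 y
        refine le_trans ?_ (h0 0)
        exact mul_nonneg (by linarith) measureReal_nonneg
      rw [probReal_univ] at h1
      linarith
  have e2 : N B = 0 := by
    have e : (fun x => max (u x - B) 0) = fun _ => (0 : ℝ) :=
      funext fun x => max_eq_right (by linarith [hu1 x])
    simp only [hN]
    rw [e]
    simp
  have e3 : Lam h (-B) = ∫ x, (h x - -B) ∂g1 := by
    have hib : Integrable (fun x => h x - -B) g1 := hi.sub (integrable_const _)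
    have hnn : ∀ x, 0 ≤ h x - -B := fun x => by
      have := (abs_le.1 (hB x)).1
      linarith
    apply le_antisymm
    · refine ciSup_le fun A => ?_
      exact setIntegral_le_integral hib (Filter.Eventually.of_forall hnn)
    · have h0 : ∀ y, 2 * B * g1.real (Ioi y) ≤
          2 * B - (∫ x, (h x - -B) ∂g1 - Lam h (-B)) := by
        intro y
        have h2 := le_Lam h B hB (-B) y
        have h3 : ∫ x, (h x - -B) ∂g1 = (∫ x in Iic y, (h x - -B) ∂g1) + J h (-B) y := by
          unfold J
          rw [← compl_Iic]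
          exact (integral_add_compl measurableSet_Iic hib).symm
        have h4 : ∫ x in Iic y, (h x - -B) ∂g1 ≤ 2 * B * g1.real (Iic y) := by
          have h5 := norm_setIntegral_le_of_norm_le_const (μ := g1) (s := Iic y)
            (f := fun t => h t - -B) (C := 2 * B) (measure_lt_top _ _) (fun x _ => by
              rw [Real.norm_eq_abs, abs_le]
              have := abs_le.1 (hB x)
              constructor <;> linarith)
          rw [Real.norm_eq_abs, abs_le] at h5
          exact h5.2
        rw [Ioi_Iic]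
        linarith
      have h1 : (2 * B) * g1.real univ ≤ 2 * B - (∫ x, (h x - -B) ∂g1 - Lam h (-B)) := by
        refine upper_set g1 isOpen_univ (2 * B) _ (by linarith) ?_ fun y _ => h0 y
        refine le_trans ?_ (h0 0)
        exact mul_nonneg (by linarith) measureReal_nonneg
      rw [probReal_univ] at h1
      linarith
  have e4 : N (-B) = ∫ x, (u x - -B) ∂g1 := by
    simp only [hN]
    congr 1
    funext x
    exact max_eq_left (by linarith [hu2 x])
  rw [e1, e2, e3, e4, integral_sub hi (integrable_const _), integral_sub hui (integrable_const _)]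
    at hDB
  linarith

end R34.DP
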